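import Pool.Agent.H93.TN.TargetsC

/-!
Local smoothing with a smaller fraction of an angular derivative (MP_ee74d2_an), module ARI:
arithmetic of the losses.
-/

set_option autoImplicit false

namespace Pool.Agent.H86.TN

open MeasureTheory Set FourierTransform
open Pool.Agent.H93.TN
open Pool.Agent.H83.LS Pool.Agent.H93.AR Pool.Agent.H54.LS Pool.Agent.H14.LS Pool.Agent.H83.AR
open Pool.Agent.H84.BR Pool.Agent.H84.B2
open scoped ENNReal NNReal

/-- one factor of the loss -/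
theorem fr_le (n : ℕ) (q C lam L ε Lam φ T₁ T : ℝ) (hn : 1 ≤ n) (hq : 2 < q) (hC : 1 ≤ C)
    (hlam : 1 ≤ lam) (hL : 1 ≤ L) (hε : 0 < ε) (h1 : Real.sqrt lam ≤ Lam) (h2 : Lam ≤ 4 * lam)
    (h3 : dl lam Lam ≤ φ) (h4 : φ ≤ 1) (hT0 : 0 < T) (hT : T ≤ T₁)
    (h5 : 2 ≤ n → (φ / dl lam Lam) ^ 2 * T₁ ≤ C * lam ^ (2 * ε) * L) :
    0 ≤ FR n q lam Lam φ ∧
    FR n q lam Lam φ ≤
      (4096 * C * lam ^ (2 * ε) * min lam (L / T)) ^ (((n : ℝ) - 1) * ((q - 2) / 2)) := by
  have hlam0 : 0 < lam := by linarith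
  have hs0 : 0 < Real.sqrt lam := Real.sqrt_pos.mpr hlam0
  have hLam0 : 0 < Lam := lt_of_lt_of_le hs0 h1
  have hdl0 : 0 < dl lam Lam := by unfold dl; positivity
  have hφ0 : 0 < φ := lt_of_lt_of_le hdl0 h3
  have hx0 : 0 < φ / dl lam Lam := div_pos hφ0 hdl0
  have hfr0 : 0 ≤ FR n q lam Lam φ := by unfold FR; positivity
  refine ⟨hfr0, ?_⟩
  have hle1 : 1 ≤ lam ^ (2 * ε) := Real.one_le_rpow hlam (by positivity)
  by_cases hn2 : 2 ≤ n
  · have h5' := h5 hn2
    have hx2 : (φ / dl lam Lam) ^ 2 ≤ 4096 * lam := by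
      have e1 : φ / dl lam Lam = 16 * Lam * φ / Real.sqrt lam := by
        unfold dl; field_simp
      have e2 : φ / dl lam Lam ≤ 64 * Real.sqrt lam := by
        rw [e1, div_le_iff₀ hs0]
        have : Real.sqrt lam * Real.sqrt lam = lam := Real.mul_self_sqrt hlam0.le
        have h6 : Lam * φ ≤ Lam := mul_le_of_le_one_right hLam0.le h4
        nlinarith
      calc (φ / dl lam Lam) ^ 2 ≤ (64 * Real.sqrt lam) ^ 2 := by
            exact pow_le_pow_left₀ hx0.le e2 2
        _ = 4096 * lam := by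
            rw [mul_pow, Real.sq_sqrt hlam0.le]; norm_num
    have hx3 : (φ / dl lam Lam) ^ 2 ≤ 4096 * C * lam ^ (2 * ε) * min lam (L / T) := by
      have hDC : 1 ≤ C * lam ^ (2 * ε) := one_le_mul_of_one_le_of_one_le hC hle1
      rcases le_total lam (L / T) with h | h
      · rw [min_eq_left h]
        calc (φ / dl lam Lam) ^ 2 ≤ 4096 * lam := hx2
          _ = 4096 * (1 * lam) := by ring
          _ ≤ 4096 * ((C * lam ^ (2 * ε)) * lam) := by gcongr
          _ = 4096 * C * lam ^ (2 * ε) * lam := by ring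
      · rw [min_eq_right h]
        have h7 : (φ / dl lam Lam) ^ 2 * T ≤ C * lam ^ (2 * ε) * L :=
          le_trans (by gcongr) h5'
        have h8 : (φ / dl lam Lam) ^ 2 ≤ C * lam ^ (2 * ε) * L / T := by
          rw [le_div_iff₀ hT0]; exact h7
        have h9 : 0 ≤ C * lam ^ (2 * ε) * L / T := by positivity
        calc (φ / dl lam Lam) ^ 2 ≤ C * lam ^ (2 * ε) * L / T := h8
          _ ≤ 4096 * (C * lam ^ (2 * ε) * L / T) := by linarith
          _ = 4096 * C * lam ^ (2 * ε) * (L / T) := by ring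
    have hn1 : (0 : ℝ) ≤ (n : ℝ) - 1 := by
      have : (1 : ℝ) ≤ n := by exact_mod_cast hn
      linarith
    have he : FR n q lam Lam φ =
        ((φ / dl lam Lam) ^ 2) ^ (((n : ℝ) - 1) * ((q - 2) / 2)) := by
      unfold FR
      rw [← Real.rpow_natCast, ← Real.rpow_mul hx0.le]
      congr 1
      push_cast
      ring
    rw [he]
    refine Real.rpow_le_rpow (by positivity) hx3 ?_
    exact mul_nonneg hn1 (by linarith)
  · have hn1 : n = 1 := by omega
    subst hn1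
    unfold FR
    simp

theorem pf_ari : T_ARI := by
  intro a b q ha hb hq hq3 C lam L ε Lam₁ Lam₂ φ₁ φ₂ T₁ T₂ hC hlam hL hε hA1 hA2 hB1 hB2 hd1 hp1
    hd2 hp2 hT1 hT1' hT2 hT2' hx1 hx2
  have hlam0 : 0 < lam := by linarith
  have hL0 : 0 < L := by linarith
  set T := min T₁ T₂ with hTdef
  have hT0 : 0 < T := lt_min hT1 hT2
  have hTle : T ≤ 1 := le_trans (min_le_left _ _) hT1'
  have hmin : min 1 T = T := min_eq_right hTle
  rw [hmin]
  set W := min lam (L / T) with hW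
  have hLT : 1 ≤ L / T := by
    rw [le_div_iff₀ hT0]; linarith
  have hW1 : 1 ≤ W := le_min hlam hLT
  have hW0 : 0 < W := by linarith
  set D := 4096 * C * lam ^ (2 * ε) with hD
  have hle1 : 1 ≤ lam ^ (2 * ε) := Real.one_le_rpow hlam (by positivity)
  have hD1 : 1 ≤ D := by
    rw [hD]
    have h1 : (1 : ℝ) ≤ 4096 * C := by linarith
    exact one_le_mul_of_one_le_of_one_le h1 hle1
  have hD0 : 0 < D := by linarith
  obtain ⟨hf1, hf1'⟩ := fr_le a q C lam L ε Lam₁ φ₁ T₁ T ha hq hC hlam hL hε hA1 hA2 hd1 hp1 hT0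
    (min_le_left _ _) hx1
  obtain ⟨hf2, hf2'⟩ := fr_le b q C lam L ε Lam₂ φ₂ T₂ T hb hq hC hlam hL hε hB1 hB2 hd2 hp2 hT0
    (min_le_right _ _) hx2
  rw [← hD, ← hW] at hf1' hf2'
  have haR : (1 : ℝ) ≤ a := by exact_mod_cast ha
  have hbR : (1 : ℝ) ≤ b := by exact_mod_cast hb
  set s : ℝ := ((a : ℝ) + b - 2) * ((q - 2) / 2) with hs
  have hs0 : 0 ≤ s := mul_nonneg (by linarith) (by linarith)
  have hsle : s ≤ (a : ℝ) + b := by
    have h1 : (q - 2) / 2 ≤ 1 := by linarith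
    have h2 : s ≤ ((a : ℝ) + b - 2) * 1 := mul_le_mul_of_nonneg_left h1 (by linarith)
    linarith
  set γ : ℝ := 2 - q / 2 with hγ
  have hγ0 : 0 < γ := by rw [hγ]; linarith
  have hDW : 0 < D * W := mul_pos hD0 hW0
  have hprod : FR a q lam Lam₁ φ₁ * FR b q lam Lam₂ φ₂ ≤ D ^ s * W ^ s := by
    calc FR a q lam Lam₁ φ₁ * FR b q lam Lam₂ φ₂
        ≤ (D * W) ^ (((a : ℝ) - 1) * ((q - 2) / 2)) * (D * W) ^ (((b : ℝ) - 1) * ((q - 2) / 2)) :=
          mul_le_mul hf1' hf2' hf2 (by positivity)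
      _ = (D * W) ^ s := by
          rw [← Real.rpow_add hDW]
          congr 1
          rw [hs]; ring
      _ = D ^ s * W ^ s := Real.mul_rpow hD0.le hW0.le
  have hDs : D ^ s ≤ (4096 * C) ^ ((a : ℝ) + b) * lam ^ (2 * ε * ((a : ℝ) + b)) := by
    calc D ^ s ≤ D ^ ((a : ℝ) + b) := Real.rpow_le_rpow_of_exponent_le hD1 hsle
      _ = (4096 * C) ^ ((a : ℝ) + b) * (lam ^ (2 * ε)) ^ ((a : ℝ) + b) := by
          rw [hD]; exact Real.mul_rpow (by positivity) (by positivity)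
      _ = _ := by rw [← Real.rpow_mul hlam0.le]
  have hEx : ExR ((a : ℝ) + b - 1) q = max 0 (s - γ) := by
    unfold ExR
    congr 1
    rw [hs, hγ]; ring
  have hWT : W ^ s * T ^ γ ≤ lam ^ (ExR ((a : ℝ) + b - 1) q) * L ^ γ := by
    rw [hEx]
    rcases le_total s γ with h | h
    · rw [max_eq_left (by linarith), Real.rpow_zero, one_mul]
      calc W ^ s * T ^ γ ≤ (L / T) ^ s * T ^ γ := by
            gcongr
            exact min_le_right _ _
        _ = L ^ s * T ^ (γ - s) := by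
            have hTs : T ^ γ / T ^ s = T ^ (γ - s) := (Real.rpow_sub hT0 γ s).symm
            rw [Real.div_rpow hL0.le hT0.le, div_mul_eq_mul_div, mul_div_assoc, hTs]
        _ ≤ L ^ s * 1 := by
            gcongr
            exact Real.rpow_le_one hT0.le hTle (by linarith)
        _ = L ^ s := mul_one _
        _ ≤ L ^ γ := Real.rpow_le_rpow_of_exponent_le hL h
    · rw [max_eq_right (by linarith)]
      have e1 : W ^ s = W ^ (s - γ) * W ^ γ := by
        rw [← Real.rpow_add hW0]; congr 1; ring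
      calc W ^ s * T ^ γ = W ^ (s - γ) * W ^ γ * T ^ γ := by rw [e1]
        _ ≤ lam ^ (s - γ) * (L / T) ^ γ * T ^ γ := by
            have h1 : W ^ (s - γ) ≤ lam ^ (s - γ) :=
              Real.rpow_le_rpow hW0.le (min_le_left _ _) (sub_nonneg.mpr h)
            have h2 : W ^ γ ≤ (L / T) ^ γ :=
              Real.rpow_le_rpow hW0.le (min_le_right _ _) hγ0.le
            exact mul_le_mul_of_nonneg_right (mul_le_mul h1 h2 (by positivity) (by positivity))
              (by positivity)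
        _ = lam ^ (s - γ) * L ^ γ := by
            have hTg : (T ^ γ) ≠ 0 := (Real.rpow_pos_of_pos hT0 γ).ne'
            rw [Real.div_rpow hL0.le hT0.le, mul_assoc, div_mul_cancel₀ _ hTg]
  calc FR a q lam Lam₁ φ₁ * FR b q lam Lam₂ φ₂ * T ^ γ ≤ (D ^ s * W ^ s) * T ^ γ := by
        gcongr
    _ = D ^ s * (W ^ s * T ^ γ) := by ring
    _ ≤ ((4096 * C) ^ ((a : ℝ) + b) * lam ^ (2 * ε * ((a : ℝ) + b))) *
        (lam ^ (ExR ((a : ℝ) + b - 1) q) * L ^ γ) := by
        exact mul_le_mul hDs hWT (by positivity) (by positivity)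

end Pool.Agent.H86.TN
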