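import Pool.Agent.H93.TN.TargetsC

/-!
Local smoothing with a smaller fraction of an angular derivative (MP_ee74d2_an), module HH:
both blocks have high frequencies, one region in each block.
-/

set_option autoImplicit false

namespace Pool.Agent.H86.TN.HH

open MeasureTheory Set FourierTransform
open Pool.Agent.H93.TN
open Pool.Agent.H83.LS Pool.Agent.H93.AR Pool.Agent.H54.LS Pool.Agent.H14.LS Pool.Agent.H83.AR
open Pool.Agent.H84.BR Pool.Agent.H84.B2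
open scoped ENNReal NNReal

theorem exists_unit (n : ℕ) (hn : 1 ≤ n) : ∃ u : EE n, ‖u‖ = 1 :=
  ⟨EuclideanSpace.single ⟨0, hn⟩ 1, by simp⟩

theorem dl_pos {lam Lam : ℝ} (hlam : 1 ≤ lam) (h : Real.sqrt lam ≤ Lam) : 0 < dl lam Lam := by
  have hs0 : 0 < Real.sqrt lam := Real.sqrt_pos.mpr (by linarith)
  have hL0 : 0 < Lam := lt_of_lt_of_le hs0 h
  unfold dl
  positivity

theorem fr_nonneg (n : ℕ) {q ε lam Lam L ρ φ : ℝ} (hlam : 1 ≤ lam) (h : Real.sqrt lam ≤ Lam)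
    (hR : RG n ε lam Lam L ρ φ) : 0 ≤ FR n q lam Lam φ := by
  have h1 := dl_pos hlam h
  have h2 : 0 ≤ φ := by
    rcases hR with ⟨-, h3⟩ | ⟨-, -, -, h3, -⟩
    · rw [h3]; norm_num
    · linarith
  unfold FR
  positivity

/-- the arithmetic of step 1 -/
theorem pow_bd {c m T γ : ℝ} (hc : 1 ≤ c) (hγ0 : 0 < γ) (hγ1 : γ ≤ 1) (hT : 0 < T) (hm : 0 ≤ m)
    (h : m ≤ c * T) : m ^ γ ≤ c * T ^ γ := by
  have hc0 : 0 ≤ c := by linarith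
  calc m ^ γ ≤ (c * T) ^ γ := Real.rpow_le_rpow hm h hγ0.le
    _ = c ^ γ * T ^ γ := Real.mul_rpow hc0 hT.le
    _ ≤ c ^ (1 : ℝ) * T ^ γ := by
        have : c ^ γ ≤ c ^ (1 : ℝ) := Real.rpow_le_rpow_of_exponent_le hc hγ1
        have hTp : 0 ≤ T ^ γ := by positivity
        exact mul_le_mul_of_nonneg_right this hTp
    _ = c * T ^ γ := by rw [Real.rpow_one]

theorem pf_hh (hOB : T_OB) (hOBM : T_OBM) (hBND : T_BND) (hBNM : T_BNM) (hMFX : T_MFX) :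
    T_HH := by
  intro a b q ε N ha hb hq hq3 hε hε1
  obtain ⟨M, hM, hMF⟩ := hMFX a b ha hb
  obtain ⟨C₁, hC₁⟩ := hBND a b q ε ha hb hq hq3 hε
  obtain ⟨C₂, hC₂⟩ := hBNM a b q ε ha hb hq hq3 hε
  obtain ⟨C₃, hC₃⟩ := hOBM a b q ε M N ha hb hq hε hM
  obtain ⟨C₄, hC₄⟩ := hOB a b q ε M N ha hb hq hε hM
  obtain ⟨u₀, hu₀⟩ := exists_unit a ha
  obtain ⟨w₀, hw₀⟩ := exists_unit b hb
  set C : ℝ≥0 := C₁ + C₂ with hC
  refine ⟨2 * C₄ * C₃ * C + C₄ * C₃ + C₄, ?_⟩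
  intro lam Lam₁ Lam₂ L ρ₁ φ₁ σ₁ ρ₂ φ₂ σ₂ A h hlam h1a h1b h2a h2b hL hσ₁ hσ₂ hR₁ hR₂ hh
  have hlam0 : 0 < lam := by linarith
  have hs0 : 0 < Real.sqrt lam := Real.sqrt_pos.mpr hlam0
  have hLam₁ : 0 < Lam₁ := lt_of_lt_of_le hs0 h1a
  have hLam₂ : 0 < Lam₂ := lt_of_lt_of_le hs0 h2a
  have hσ₁0 : 0 < σ₁ := lt_of_lt_of_le (by positivity) hσ₁
  have hσ₂0 : 0 < σ₂ := lt_of_lt_of_le (by positivity) hσ₂
  have hA : 0 ≤ A := le_trans (norm_nonneg _) (hh.2.2 0)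
  set γ : ℝ := 2 - q / 2 with hγ
  have hγ0 : 0 < γ := by rw [hγ]; linarith
  have hγ1 : γ ≤ 1 := by rw [hγ]; linarith
  set X₁ : ℝ := σ₁ * lam / Lam₁ with hX₁
  set X₂ : ℝ := σ₂ * lam / Lam₂ with hX₂
  have hX₁0 : 0 < X₁ := by positivity
  have hX₂0 : 0 < X₂ := by positivity
  set T : ℝ := min 1 (min X₁ X₂) with hT
  have hT0 : 0 < T := lt_min one_pos (lt_min hX₁0 hX₂0)
  have hle1 : 1 ≤ lam ^ ε := Real.one_le_rpow hlam hε.le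
  set c₁ : ℝ → ℝ := fun s => chi (s / Lam₁) with hc₁
  set c₂ : ℝ → ℝ := fun s => chi (s / Lam₂) with hc₂
  set P : ℝ≥0∞ := ENNReal.ofReal (lam ^ (2 * ε) * T ^ γ) with hP
  set K : ℝ≥0∞ := C * (2 * P) with hK
  have hlam2 : lam ^ ε * lam ^ ε = lam ^ (2 * ε) := by
    rw [← Real.rpow_add hlam0]; congr 1; ring
  -- step 1
  have key : ∀ (m A' : ℝ) (I X : ℝ≥0∞) (C' : ℝ≥0), C' ≤ C → 0 ≤ A' → 0 ≤ m →
      m ^ γ ≤ 2 * lam ^ ε * T ^ γ →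
      X ≤ C' * ENNReal.ofReal (lam ^ ε * m ^ γ * A' ^ (q - 2)) * I →
      X ≤ K * ENNReal.ofReal (A' ^ (q - 2)) * I := by
    intro m A' I X C' hCC hA' hm hmb hX
    refine le_trans hX ?_
    have e1 : K * ENNReal.ofReal (A' ^ (q - 2)) =
        C * ENNReal.ofReal (lam ^ ε * (2 * lam ^ ε * T ^ γ) * A' ^ (q - 2)) := by
      have e2 : lam ^ ε * (2 * lam ^ ε * T ^ γ) = 2 * (lam ^ (2 * ε) * T ^ γ) := by
        rw [← hlam2]; ring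
      rw [e2, ENNReal.ofReal_mul (by positivity), ENNReal.ofReal_mul (by norm_num), hK, hP]
      rw [ENNReal.ofReal_ofNat]
      ring
    rw [e1]
    gcongr
  have step1 : ∀ (u : EE a) (w : EE b) (A' : ℝ) (g : EE (a + b) → ℂ), ‖u‖ = 1 → ‖w‖ = 1 →
      BI A' g →
      ∫⁻ t in Icc (1 : ℝ) 2, ∫⁻ x in {x : EE (a + b) | |inner ℝ (p2 a b x) w| ≤ 2 * lam ^ ε * σ₂ ∧
        |inner ℝ (p1 a b x) u| ≤ 2 * lam ^ ε * σ₁},
        ‖MM (mB a b c₁ c₂ (sy a ch2 Lam₁ (dl lam Lam₁) u) (sy b ch2 Lam₂ (dl lam Lam₂) w)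
          lam t) g x‖ₑ ^ q ≤ K * ENNReal.ofReal (A' ^ (q - 2)) * ∫⁻ x, ‖g x‖ₑ ^ 2 := by
    intro u w A' g hu hw hg
    have hA' : 0 ≤ A' := le_trans (norm_nonneg _) (hg.2.2 0)
    have hBSa : BS a lam Lam₁ c₁ (sy a ch2 Lam₁ (dl lam Lam₁) u) u :=
      ⟨hu, Or.inl ⟨h1a, h1b, fun s => rfl, rfl⟩⟩
    have hBSb : BS b lam Lam₂ c₂ (sy b ch2 Lam₂ (dl lam Lam₂) w) w :=
      ⟨hw, Or.inl ⟨h2a, h2b, fun s => rfl, rfl⟩⟩
    obtain ⟨q1, q2⟩ := hC₁ lam Lam₁ Lam₂ A' c₁ c₂ _ _ u w g hlam hu h1a h1b (fun s => rfl) rfl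
      hBSb hg
    obtain ⟨-, q3⟩ := hC₂ lam Lam₁ Lam₂ A' c₁ c₂ _ _ u w g hlam hw h2a h2b (fun s => rfl) rfl
      hBSa hg
    have hc2 : 1 ≤ 2 * lam ^ ε := by linarith
    have hTc : T = 1 ∨ T = X₁ ∨ T = X₂ := by
      rcases min_choice 1 (min X₁ X₂) with h' | h'
      · left; rw [hT, h']
      · rcases min_choice X₁ X₂ with h'' | h''
        · right; left; rw [hT, h', h'']
        · right; right; rw [hT, h', h'']
    rcases hTc with hTc | hTc | hTc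
    · refine key 1 A' _ _ C₁ (by rw [hC]; exact le_self_add) hA' zero_le_one ?_ ?_
      · exact pow_bd hc2 hγ0 hγ1 hT0 zero_le_one (by rw [hTc]; linarith)
      · rw [Real.one_rpow, mul_one]
        refine le_trans ?_ q1
        refine lintegral_mono fun t => ?_
        exact lintegral_mono' Measure.restrict_le_self le_rfl
    · refine key (2 * lam ^ ε * X₁) A' _ _ C₁ (by rw [hC]; exact le_self_add) hA'
        (by positivity) ?_ ?_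
      · exact pow_bd hc2 hγ0 hγ1 hT0 (by positivity) (by rw [hTc])
      · have h5 : 1 / Lam₁ ≤ 2 * lam ^ ε * σ₁ := by nlinarith
        have h6 := q2 (2 * lam ^ ε * σ₁) h5
        have e3 : 2 * lam ^ ε * X₁ = 2 * lam ^ ε * σ₁ * lam / Lam₁ := by rw [hX₁]; ring
        rw [e3]
        refine le_trans ?_ h6
        refine lintegral_mono fun t => ?_
        exact lintegral_mono_set (fun x hx => hx.2)
    · refine key (2 * lam ^ ε * X₂) A' _ _ C₂ (by rw [hC]; exact le_add_self) hA'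
        (by positivity) ?_ ?_
      · exact pow_bd hc2 hγ0 hγ1 hT0 (by positivity) (by rw [hTc])
      · have h5 : 1 / Lam₂ ≤ 2 * lam ^ ε * σ₂ := by nlinarith
        have h6 := q3 (2 * lam ^ ε * σ₂) h5
        have e3 : 2 * lam ^ ε * X₂ = 2 * lam ^ ε * σ₂ * lam / Lam₂ := by rw [hX₂]; ring
        rw [e3]
        refine le_trans ?_ h6
        refine lintegral_mono fun t => ?_
        exact lintegral_mono_set (fun x hx => hx.1)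
  -- step 2
  set F₁ : ℝ≥0∞ := ENNReal.ofReal (FR a q lam Lam₁ φ₁) with hF₁
  set F₂ : ℝ≥0∞ := ENNReal.ofReal (FR b q lam Lam₂ φ₂) with hF₂
  set E : ℝ≥0∞ := ENNReal.ofReal ((lam ^ N)⁻¹) with hE
  set K' : ℝ≥0∞ := C₃ * (F₂ * K + E) with hK'
  have step2 : ∀ (u : EE a) (A' : ℝ) (g : EE (a + b) → ℂ), ‖u‖ = 1 → BI A' g →
      ∫⁻ t in Icc (1 : ℝ) 2, ∫⁻ x in {x : EE (a + b) | |inner ℝ (p1 a b x) u| ≤ 2 * lam ^ ε * σ₁ ∧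
        p2 a b x ∈ {y : EE b | ρ₂ ≤ ‖y‖ ∧ ‖y‖ ≤ σ₂}},
        ‖MM (fun ξ => mB a b c₁ c₂ (fun _ => 1) (fun _ => 1) lam t ξ *
          sy a ch2 Lam₁ (dl lam Lam₁) u (p1 a b ξ)) (A2 a b L g) x‖ₑ ^ q ≤
        K' * ENNReal.ofReal (A' ^ (q - 2)) * ∫⁻ x, ‖g x‖ₑ ^ 2 := by
    intro u A' g hu hg
    have hBSa : BS a lam Lam₁ c₁ (sy a ch2 Lam₁ (dl lam Lam₁) u) u :=
      ⟨hu, Or.inl ⟨h1a, h1b, fun s => rfl, rfl⟩⟩
    have hBSb : BS b lam Lam₂ c₂ (sy b ch2 Lam₂ (dl lam Lam₂) w₀) w₀ :=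
      ⟨hw₀, Or.inl ⟨h2a, h2b, fun s => rfl, rfl⟩⟩
    have hMF2 := (hMF lam Lam₁ Lam₂ c₁ c₂ _ _ u w₀ hlam hBSa hBSb).2.1 (fun s => rfl)
    have hY : MeasurableSet {y : EE a | |inner ℝ y u| ≤ 2 * lam ^ ε * σ₁} := by
      refine measurableSet_le ?_ measurable_const
      have : Continuous fun y : EE a => |inner ℝ y u| := by fun_prop
      exact this.measurable
    have h7 := hC₃ lam Lam₂ L ρ₂ φ₂ σ₂ A' K {y : EE a | |inner ℝ y u| ≤ 2 * lam ^ ε * σ₁} _ g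
      hlam h2a h2b hL hσ₂ hR₂ hY hMF2 ?_ hg
    · have e1 : ∀ t : ℝ, (fun ξ => mB a b c₁ c₂ (fun _ => 1) (fun _ => 1) lam t ξ *
          sy a ch2 Lam₁ (dl lam Lam₁) u (p1 a b ξ)) =
          fun ξ => mB a b c₁ c₂ (sy a ch2 Lam₁ (dl lam Lam₁) u) (fun _ => 1) lam t ξ := by
        intro t
        funext ξ
        simp only [mB, mul_one]
      have e2 : {x : EE (a + b) | |inner ℝ (p1 a b x) u| ≤ 2 * lam ^ ε * σ₁ ∧
          p2 a b x ∈ {y : EE b | ρ₂ ≤ ‖y‖ ∧ ‖y‖ ≤ σ₂}} =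
          {x : EE (a + b) | ρ₂ ≤ ‖p2 a b x‖ ∧ ‖p2 a b x‖ ≤ σ₂ ∧
            p1 a b x ∈ {y : EE a | |inner ℝ y u| ≤ 2 * lam ^ ε * σ₁}} := by
        ext x
        simp only [mem_setOf_eq]
        tauto
      simp only [e1]
      rw [e2]
      exact h7
    · intro w A'' g' hw hg'
      have h8 := step1 u w A'' g' hu hw hg'
      have e1 : ∀ t : ℝ, (fun ξ => mB a b c₁ c₂ (sy a ch2 Lam₁ (dl lam Lam₁) u) (fun _ => 1)
          lam t ξ * sy b ch2 Lam₂ (dl lam Lam₂) w (p2 a b ξ)) =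
          mB a b c₁ c₂ (sy a ch2 Lam₁ (dl lam Lam₁) u) (sy b ch2 Lam₂ (dl lam Lam₂) w) lam t := by
        intro t
        funext ξ
        simp only [mB, mul_one]
        ring
      simp only [e1]
      exact h8
  -- step 3
  have hBSa : BS a lam Lam₁ c₁ (sy a ch2 Lam₁ (dl lam Lam₁) u₀) u₀ :=
    ⟨hu₀, Or.inl ⟨h1a, h1b, fun s => rfl, rfl⟩⟩
  have hBSb : BS b lam Lam₂ c₂ (sy b ch2 Lam₂ (dl lam Lam₂) w₀) w₀ :=
    ⟨hw₀, Or.inl ⟨h2a, h2b, fun s => rfl, rfl⟩⟩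
  have hMF1 := (hMF lam Lam₁ Lam₂ c₁ c₂ _ _ u₀ w₀ hlam hBSa hBSb).2.2.1 (fun s => rfl)
  have hY : MeasurableSet {y : EE b | ρ₂ ≤ ‖y‖ ∧ ‖y‖ ≤ σ₂} := by
    have h1 : MeasurableSet {y : EE b | ρ₂ ≤ ‖y‖} :=
      measurableSet_le measurable_const measurable_norm
    have h2 : MeasurableSet {y : EE b | ‖y‖ ≤ σ₂} :=
      measurableSet_le measurable_norm measurable_const
    exact h1.inter h2
  have h9 := hC₄ lam Lam₁ L ρ₁ φ₁ σ₁ A K' {y : EE b | ρ₂ ≤ ‖y‖ ∧ ‖y‖ ≤ σ₂} _ (A2 a b L) h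
    hlam h1a h1b hL hσ₁ hR₁ hY hMF1 (Or.inr fun f => rfl) step2 hh
  have e1 : ∀ t : ℝ, (fun ξ => mB a b c₁ c₂ (fun _ => 1) (fun _ => 1) lam t ξ) =
      mc a b c₁ c₂ lam t := by
    intro t
    funext ξ
    simp only [mB, mul_one]
  have e2 : {x : EE (a + b) | (ρ₁ ≤ ‖p1 a b x‖ ∧ ‖p1 a b x‖ ≤ σ₁) ∧
      (ρ₂ ≤ ‖p2 a b x‖ ∧ ‖p2 a b x‖ ≤ σ₂)} =
      {x : EE (a + b) | ρ₁ ≤ ‖p1 a b x‖ ∧ ‖p1 a b x‖ ≤ σ₁ ∧
        p2 a b x ∈ {y : EE b | ρ₂ ≤ ‖y‖ ∧ ‖y‖ ≤ σ₂}} := by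
    ext x
    simp only [mem_setOf_eq]
    tauto
  simp only [e1] at h9
  rw [e2]
  refine le_trans h9 ?_
  have hfr₁ : 0 ≤ FR a q lam Lam₁ φ₁ := fr_nonneg a hlam h1a hR₁
  have hfr₂ : 0 ≤ FR b q lam Lam₂ φ₂ := fr_nonneg b hlam h2a hR₂
  have e3 : ENNReal.ofReal ((lam ^ (2 * ε) * FR a q lam Lam₁ φ₁ * FR b q lam Lam₂ φ₂ * T ^ γ +
      FR a q lam Lam₁ φ₁ * (lam ^ N)⁻¹ + (lam ^ N)⁻¹) * A ^ (q - 2)) =
      (P * F₁ * F₂ + F₁ * E + E) * ENNReal.ofReal (A ^ (q - 2)) := by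
    have e4 : lam ^ (2 * ε) * FR a q lam Lam₁ φ₁ * FR b q lam Lam₂ φ₂ * T ^ γ =
        lam ^ (2 * ε) * T ^ γ * FR a q lam Lam₁ φ₁ * FR b q lam Lam₂ φ₂ := by ring
    rw [e4, ENNReal.ofReal_mul (by positivity), ENNReal.ofReal_add (by positivity) (by positivity),
      ENNReal.ofReal_add (by positivity) (by positivity), ENNReal.ofReal_mul (by positivity),
      ENNReal.ofReal_mul (by positivity), ENNReal.ofReal_mul hfr₁]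
  rw [e3, hK', hK]
  set Aq : ℝ≥0∞ := ENNReal.ofReal (A ^ (q - 2)) with hAq
  set I : ℝ≥0∞ := ∫⁻ x, ‖h x‖ₑ ^ 2 with hI
  have e5 : (C₄ : ℝ≥0∞) * (F₁ * (C₃ * (F₂ * (C * (2 * P)) + E)) + E) * Aq * I =
      (2 * C₄ * C₃ * C : ℝ≥0∞) * (P * F₁ * F₂) * Aq * I + (C₄ * C₃ : ℝ≥0∞) * (F₁ * E) * Aq * I +
        C₄ * E * Aq * I := by ring
  rw [e5]
  have e6 : ((2 * C₄ * C₃ * C + C₄ * C₃ + C₄ : ℝ≥0) : ℝ≥0∞) * ((P * F₁ * F₂ + F₁ * E + E) * Aq) * I =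
      (2 * C₄ * C₃ * C + C₄ * C₃ + C₄ : ℝ≥0∞) * (P * F₁ * F₂) * Aq * I +
      (2 * C₄ * C₃ * C + C₄ * C₃ + C₄ : ℝ≥0∞) * (F₁ * E) * Aq * I +
      (2 * C₄ * C₃ * C + C₄ * C₃ + C₄ : ℝ≥0∞) * E * Aq * I := by
    push_cast
    ring
  rw [e6]
  have u1 : (2 * C₄ * C₃ * C : ℝ≥0∞) ≤ 2 * C₄ * C₃ * C + C₄ * C₃ + C₄ := by
    rw [add_assoc]; exact le_self_add
  have u2 : (C₄ * C₃ : ℝ≥0∞) ≤ 2 * C₄ * C₃ * C + C₄ * C₃ + C₄ :=
    le_trans le_add_self le_self_add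
  have u3 : (C₄ : ℝ≥0∞) ≤ 2 * C₄ * C₃ * C + C₄ * C₃ + C₄ := le_add_self
  gcongr

end Pool.Agent.H86.TN.HH
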