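import Pool.Agent.H93.TN.TargetsC

/-!
Local smoothing with a smaller fraction of an angular derivative (MP_ee74d2_an), module MFX:
the families of symbols in use are admissible.
-/

set_option autoImplicit false

namespace Pool.Agent.H86.TN.MFX

open MeasureTheory Set FourierTransform
open Pool.Agent.H93.TN
open Pool.Agent.H83.LS Pool.Agent.H93.AR Pool.Agent.H54.LS Pool.Agent.H14.LS Pool.Agent.H83.AR
open Pool.Agent.H84.BR Pool.Agent.H84.B2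
open scoped ENNReal NNReal

theorem eta0_nonneg (s : ℝ) : 0 ≤ eta0 s := Real.smoothTransition.nonneg _

theorem eta0_le_one (s : ℝ) : eta0 s ≤ 1 := Real.smoothTransition.le_one _

theorem eta0_one {s : ℝ} (h : s ≤ 1) : eta0 s = 1 :=
  Real.smoothTransition.one_of_one_le (by linarith)

theorem eta0_zero {s : ℝ} (h : 2 ≤ s) : eta0 s = 0 :=
  Real.smoothTransition.zero_of_nonpos (by linarith)

theorem eta0_contDiff : ContDiff ℝ (⊤ : ℕ∞) eta0 := by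
  unfold eta0
  exact Real.smoothTransition.contDiff.comp (contDiff_const.sub contDiff_id)

theorem eta0_continuous : Continuous eta0 := eta0_contDiff.continuous

theorem abs_sub_le_one {x y : ℝ} (hx : 0 ≤ x) (hx1 : x ≤ 1) (hy : 0 ≤ y) (hy1 : y ≤ 1) :
    |x - y| ≤ 1 := by
  rw [abs_le]; constructor <;> linarith

theorem chi_abs (s : ℝ) : |chi s| ≤ 1 :=
  abs_sub_le_one (eta0_nonneg _) (eta0_le_one _) (eta0_nonneg _) (eta0_le_one _)

theorem ch2_abs (s : ℝ) : |ch2 s| ≤ 1 :=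
  abs_sub_le_one (eta0_nonneg _) (eta0_le_one _) (eta0_nonneg _) (eta0_le_one _)

theorem chi_continuous : Continuous chi :=
  eta0_continuous.sub (eta0_continuous.comp (continuous_const.mul continuous_id))

theorem chi_supp {s : ℝ} (h : chi s ≠ 0) : 1 / 2 ≤ s ∧ s ≤ 2 := by
  unfold chi at h
  constructor
  · by_contra h1
    push Not at h1
    apply h
    rw [eta0_one (by linarith), eta0_one (by linarith)]
    norm_num
  · by_contra h1
    push Not at h1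
    apply h
    rw [eta0_zero (by linarith), eta0_zero (by linarith)]
    norm_num

theorem rc_ch2 : RC ch2 := by
  constructor
  · unfold ch2
    exact (eta0_contDiff.comp (contDiff_id.div_const 4)).sub
      (eta0_contDiff.comp (contDiff_const.mul contDiff_id))
  · intro s h
    unfold ch2 at h
    constructor
    · by_contra h1
      push Not at h1
      apply h
      rw [eta0_one (by linarith), eta0_one (by linarith)]
      norm_num
    · by_contra h1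
      push Not at h1
      apply h
      rw [eta0_zero (by linarith), eta0_zero (by linarith)]
      norm_num

theorem norm_e (x : ℝ) : ‖e x‖ = 1 := by
  unfold e; exact Complex.norm_exp_ofReal_mul_I _

theorem continuous_e : Continuous e := by
  unfold e; fun_prop

theorem sy_le_one (n : ℕ) (Lam r : ℝ) (u ξ : EE n) : ‖sy n ch2 Lam r u ξ‖ ≤ 1 := by
  unfold sy
  rw [Complex.norm_real, Real.norm_eq_abs, abs_mul]
  have h1 := ch2_abs (‖ξ‖ / Lam)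
  have h2 : |eta0 ((‖‖ξ‖⁻¹ • ξ - u‖ / r) ^ 2)| ≤ 1 := by
    rw [abs_of_nonneg (eta0_nonneg _)]; exact eta0_le_one _
  exact mul_le_one₀ h1 (abs_nonneg _) h2

theorem ct_abs {Lam : ℝ} {c : ℝ → ℝ} (h : CT Lam c) (s : ℝ) : |c s| ≤ 1 := by
  rcases h with h | h
  · rw [h, abs_of_nonneg (eta0_nonneg _)]; exact eta0_le_one _
  · rw [h]; exact chi_abs _

theorem ct_cont {Lam : ℝ} {c : ℝ → ℝ} (h : CT Lam c) : Continuous c := by
  rcases h with h | h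
  · have : c = fun s => eta0 (s / Lam) := funext h
    rw [this]; exact eta0_continuous.comp (continuous_id.div_const _)
  · have : c = fun s => chi (s / Lam) := funext h
    rw [this]; exact chi_continuous.comp (continuous_id.div_const _)

/-- what a status gives -/
theorem bs_info {n : ℕ} {lam Lam : ℝ} {c : ℝ → ℝ} {κ : EE n → ℂ} {u : EE n} (hlam : 1 ≤ lam)
    (h : BS n lam Lam c κ u) : Real.sqrt lam ≤ Lam ∧ Lam ≤ 4 * lam ∧ CT Lam c ∧ 0 < Lam := by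
  have hs0 : 0 < Real.sqrt lam := Real.sqrt_pos.mpr (by linarith)
  rcases h with ⟨_, ⟨h1, h2, h3, _⟩ | ⟨h1, h2, _⟩⟩
  · exact ⟨h1, h2, Or.inr h3, lt_of_lt_of_le hs0 h1⟩
  · refine ⟨h1.ge, ?_, Or.inl h2, h1 ▸ hs0⟩
    rw [h1]
    have : Real.sqrt lam ≤ lam := by
      rw [Real.sqrt_le_left (by linarith)]
      nlinarith
    linarith

/-- properties shared by all symbols -/
theorem mb_core (hJM : Pool.Agent.H83.AR.T_JM) (a b : ℕ) (lam Lam₁ Lam₂ : ℝ) (c₁ c₂ : ℝ → ℝ)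
    (k₁ : EE a → ℂ) (k₂ : EE b → ℂ) (hlam : 1 ≤ lam) (hc₁ : CT Lam₁ c₁) (hc₂ : CT Lam₂ c₂)
    (hk₁ : Continuous k₁) (hk₂ : Continuous k₂) (hn₁ : ∀ ξ, ‖k₁ ξ‖ ≤ 1) (hn₂ : ∀ ξ, ‖k₂ ξ‖ ≤ 1) :
    Continuous (Function.uncurry (fun t ξ => mB a b c₁ c₂ k₁ k₂ lam t ξ)) ∧
    (∀ t ξ, ‖mB a b c₁ c₂ k₁ k₂ lam t ξ‖ ≤ 1) ∧
    (∀ t ξ, mB a b c₁ c₂ k₁ k₂ lam t ξ ≠ 0 → ‖ξ‖ ≤ 2 * lam ∧ c₁ ‖p1 a b ξ‖ ≠ 0 ∧
      c₂ ‖p2 a b ξ‖ ≠ 0) := by
  obtain ⟨-, -, -, -, -, hp1, hp2, -⟩ := hJM a b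
  have hc₁c := ct_cont hc₁
  have hc₂c := ct_cont hc₂
  have hlam0 : 0 < lam := by linarith
  refine ⟨?_, ?_, ?_⟩
  · have h0 : Function.uncurry (fun t ξ => mB a b c₁ c₂ k₁ k₂ lam t ξ) =
        fun q : ℝ × EE (a + b) => e (q.1 * ‖q.2‖) * ((chi (‖q.2‖ / lam) : ℝ) : ℂ) *
          ((c₁ ‖p1 a b q.2‖ * c₂ ‖p2 a b q.2‖ : ℝ) : ℂ) * (k₁ (p1 a b q.2) * k₂ (p2 a b q.2)) := by
      funext q
      simp only [Function.uncurry, mB, mc, mT]
    rw [h0]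
    have hx := continuous_e
    have hy := chi_continuous
    have e1 : Continuous fun q : ℝ × EE (a + b) => p1 a b q.2 := hp1.comp continuous_snd
    have e2 : Continuous fun q : ℝ × EE (a + b) => p2 a b q.2 := hp2.comp continuous_snd
    have e3 : Continuous fun q : ℝ × EE (a + b) => e (q.1 * ‖q.2‖) :=
      hx.comp (continuous_fst.mul continuous_snd.norm)
    have e4 : Continuous fun q : ℝ × EE (a + b) => ((chi (‖q.2‖ / lam) : ℝ) : ℂ) :=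
      Complex.continuous_ofReal.comp (hy.comp (continuous_snd.norm.div_const _))
    have e5 : Continuous fun q : ℝ × EE (a + b) =>
        ((c₁ ‖p1 a b q.2‖ * c₂ ‖p2 a b q.2‖ : ℝ) : ℂ) :=
      Complex.continuous_ofReal.comp ((hc₁c.comp e1.norm).mul (hc₂c.comp e2.norm))
    exact ((e3.mul e4).mul e5).mul ((hk₁.comp e1).mul (hk₂.comp e2))
  · intro t ξ
    unfold mB mc mT
    rw [norm_mul, norm_mul, norm_mul, norm_mul, norm_e, one_mul, Complex.norm_real,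
      Complex.norm_real, Real.norm_eq_abs, Real.norm_eq_abs, abs_mul]
    have h1 := chi_abs (‖ξ‖ / lam)
    have h2 := ct_abs hc₁ ‖p1 a b ξ‖
    have h3 := ct_abs hc₂ ‖p2 a b ξ‖
    have h4 := hn₁ (p1 a b ξ)
    have h5 := hn₂ (p2 a b ξ)
    refine mul_le_one₀ (mul_le_one₀ h1 (by positivity) (mul_le_one₀ h2 (abs_nonneg _) h3))
      (by positivity) (mul_le_one₀ h4 (norm_nonneg _) h5)
  · intro t ξ h
    unfold mB mc mT at h
    have h1 : chi (‖ξ‖ / lam) ≠ 0 := by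
      intro h1; apply h; rw [h1]; simp
    have h2 : c₁ ‖p1 a b ξ‖ ≠ 0 := by
      intro h1; apply h; rw [h1]; simp
    have h3 : c₂ ‖p2 a b ξ‖ ≠ 0 := by
      intro h1; apply h; rw [h1]; simp
    have h4 := (chi_supp h1).2
    rw [div_le_iff₀ hlam0] at h4
    exact ⟨h4, h2, h3⟩

theorem chi_block {Lam r : ℝ} {c : ℝ → ℝ} (hL : 0 < Lam) (hc : ∀ s, c s = chi (s / Lam))
    (h : c r ≠ 0) : Lam / 2 ≤ r ∧ r ≤ 2 * Lam := by
  rw [hc] at h
  obtain ⟨h1, h2⟩ := chi_supp h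
  rw [le_div_iff₀ hL] at h1
  rw [div_le_iff₀ hL] at h2
  constructor <;> linarith

/-- the norm of the kernel of a sector -/
theorem kernel_le (hSEL : T_SEL) (n : ℕ) (hn : 1 ≤ n) : ∃ C : ℝ, 0 ≤ C ∧ ∀ (Lam r : ℝ) (u : EE n),
    0 < Lam → 0 < r → r ≤ 1 / 8 → ‖u‖ = 1 → SC (sy n ch2 Lam r u) ∧
      ∫ y, ‖MK (sy n ch2 Lam r u) y‖ ≤ C := by
  obtain ⟨C, hC, h⟩ := hSEL n 0 ch2 hn rc_ch2
  refine ⟨C, hC, ?_⟩
  intro Lam r u hL hr hr8 hu
  obtain ⟨h1, -, h3, -, -⟩ := h Lam r u hL hr hr8 hu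
  refine ⟨h1, ?_⟩
  simp only [pow_zero, ENNReal.ofReal_one, mul_one] at h3
  by_cases hm : AEStronglyMeasurable (fun y => ‖MK (sy n ch2 Lam r u) y‖) volume
  · rw [integral_eq_lintegral_of_nonneg_ae (Filter.Eventually.of_forall fun _ => norm_nonneg _) hm]
    have h4 : ∫⁻ y, ENNReal.ofReal ‖MK (sy n ch2 Lam r u) y‖ = ∫⁻ y, ‖MK (sy n ch2 Lam r u) y‖ₑ := by
      refine lintegral_congr fun y => ?_
      exact ofReal_norm _
    rw [h4]
    exact ENNReal.toReal_le_of_le_ofReal hC h3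
  · rw [integral_undef (fun hi => hm hi.aestronglyMeasurable)]
    exact hC

theorem dl_bd {lam Lam : ℝ} (hlam : 1 ≤ lam) (h : Real.sqrt lam ≤ Lam) :
    0 < dl lam Lam ∧ dl lam Lam ≤ 1 / 8 := by
  have hs0 : 0 < Real.sqrt lam := Real.sqrt_pos.mpr (by linarith)
  have hL0 : 0 < Lam := lt_of_lt_of_le hs0 h
  unfold dl
  refine ⟨by positivity, ?_⟩
  rw [div_le_div_iff₀ (by positivity) (by norm_num)]
  linarith

theorem pf_mfx (hSV2 : T_SV2) (hCB1 : T_CB1) (hCB2 : T_CB2) (hSEL : T_SEL)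
    (hJM : Pool.Agent.H83.AR.T_JM) : T_MFX := by
  intro a b ha hb
  obtain ⟨C₀, hC₀, hS⟩ := hSV2 a b ha hb
  obtain ⟨Ca, hCa, hKa⟩ := kernel_le hSEL a ha
  obtain ⟨Cb, hCb, hKb⟩ := kernel_le hSEL b hb
  set D : ℝ := 1 + Ca + Cb with hD
  have hD0 : 0 ≤ D := by positivity
  set M : ℝ := C₀ * D + ((a : ℝ) + b) / 2 with hM
  have hM0 : 0 ≤ M := by positivity
  refine ⟨M, hM0, ?_⟩
  intro lam Lam₁ Lam₂ c₁ c₂ κ₁ κ₂ u w hlam hB1 hB2
  have hlam0 : 0 < lam := by linarith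
  obtain ⟨h1a, h1b, h1c, h1d⟩ := bs_info hlam hB1
  obtain ⟨h2a, h2b, h2c, h2d⟩ := bs_info hlam hB2
  have hJM' := hJM a b
  have hnorm : ∀ ξ ξ' : EE (a + b), ‖p1 a b ξ‖ = ‖p1 a b ξ'‖ → ‖p2 a b ξ‖ = ‖p2 a b ξ'‖ →
      ‖ξ‖ = ‖ξ'‖ := by
    intro ξ ξ' h1 h2
    have h3 : ‖ξ‖ ^ 2 = ‖ξ'‖ ^ 2 := by
      rw [hJM'.2.2.2.1 ξ, hJM'.2.2.2.1 ξ', h1, h2]
    exact (pow_left_inj₀ (norm_nonneg _) (norm_nonneg _) two_ne_zero).mp h3
  -- continuity and bounds of the sectors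
  have hκ1 : Continuous κ₁ ∧ (∀ ξ, ‖κ₁ ξ‖ ≤ 1) := by
    rcases hB1 with ⟨hu, ⟨h1, h2, h3, h4⟩ | ⟨h1, h2, h3⟩⟩
    · obtain ⟨hd0, hd8⟩ := dl_bd hlam h1
      rw [h4]
      exact ⟨(hKa Lam₁ (dl lam Lam₁) u h1d hd0 hd8 hu).1.1.continuous, sy_le_one _ _ _ _⟩
    · have : κ₁ = fun _ => 1 := funext h3
      rw [this]
      exact ⟨continuous_const, fun ξ => by simp⟩
  have hκ2 : Continuous κ₂ ∧ (∀ ξ, ‖κ₂ ξ‖ ≤ 1) := by
    rcases hB2 with ⟨hu, ⟨h1, h2, h3, h4⟩ | ⟨h1, h2, h3⟩⟩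
    · obtain ⟨hd0, hd8⟩ := dl_bd hlam h1
      rw [h4]
      exact ⟨(hKb Lam₂ (dl lam Lam₂) w h2d hd0 hd8 hu).1.1.continuous, sy_le_one _ _ _ _⟩
    · have : κ₂ = fun _ => 1 := funext h3
      rw [this]
      exact ⟨continuous_const, fun ξ => by simp⟩
  have hone : (∀ ξ : EE a, ‖(1 : ℂ)‖ ≤ 1) ∧ (∀ ξ : EE b, ‖(1 : ℂ)‖ ≤ 1) := ⟨by simp, by simp⟩
  -- the sup bound
  have hfin : ∀ t ∈ Icc (1 : ℝ) 2, ∀ (A A' : ℝ) (f' : EE (a + b) → ℂ), 0 ≤ A → BI A' f' →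
      A' ≤ D * A → ∀ x, ‖MM (mc a b c₁ c₂ lam t) f' x‖ ≤ M * lam ^ M * A := by
    intro t ht A A' f' hA hf' hA' x
    have h1 := (hS lam Lam₁ Lam₂ t c₁ c₂ hlam h1a h1b h2a h2b h1c h2c ht).1 A' f' hf' x
    have h2 : lam ^ (((a : ℝ) + b - 1) / 2) ≤ lam ^ M := by
      refine Real.rpow_le_rpow_of_exponent_le hlam ?_
      rw [hM]
      have : 0 ≤ C₀ * D := mul_nonneg hC₀ hD0
      linarith
    have h3 : 0 ≤ lam ^ M := by positivity
    have h4 : C₀ * D ≤ M := by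
      rw [hM]
      have : (0 : ℝ) ≤ ((a : ℝ) + b) / 2 := by positivity
      linarith
    calc ‖MM (mc a b c₁ c₂ lam t) f' x‖ ≤ C₀ * lam ^ (((a : ℝ) + b - 1) / 2) * A' := h1
      _ ≤ C₀ * lam ^ (((a : ℝ) + b - 1) / 2) * (D * A) := by gcongr
      _ ≤ C₀ * lam ^ M * (D * A) := by gcongr
      _ = (C₀ * D) * lam ^ M * A := by ring
      _ ≤ M * lam ^ M * A := by gcongr
  have hAnn : ∀ (A : ℝ) (f : EE (a + b) → ℂ), BI A f → 0 ≤ A := fun A f hf =>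
    le_trans (norm_nonneg _) (hf.2.2 0)
  have hsup2 : ∀ t ∈ Icc (1 : ℝ) 2, ∀ (A : ℝ) (f : EE (a + b) → ℂ), BI A f →
      ∀ x, ‖MM (mB a b c₁ c₂ (fun _ => 1) κ₂ lam t) f x‖ ≤ M * lam ^ M * A := by
    intro t ht A f hf x
    have hA := hAnn A f hf
    rcases hB2 with ⟨hu, ⟨h1, h2, h3, h4⟩ | ⟨h1, h2, h3⟩⟩
    · obtain ⟨hd0, hd8⟩ := dl_bd hlam h1
      obtain ⟨hsc, hker⟩ := hKb Lam₂ (dl lam Lam₂) w h2d hd0 hd8 hu
      rw [← h4] at hsc hker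
      obtain ⟨g1, g2, -⟩ := hCB2 a b κ₂ f A 1 ha hb hsc hκ2.2 hf
      have hEq : MM (mB a b c₁ c₂ (fun _ => 1) κ₂ lam t) f x =
          MM (mc a b c₁ c₂ lam t) (cb2 a b (MK κ₂) f) x := by
        unfold MM
        refine integral_congr_ae (Filter.Eventually.of_forall fun ξ => ?_)
        simp only [g2, mB, one_mul]
        ring
      rw [hEq]
      refine hfin t ht A _ _ hA g1 ?_ x
      refine mul_le_mul_of_nonneg_right ?_ hA
      rw [hD]; linarith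
    · have hEq : MM (mB a b c₁ c₂ (fun _ => 1) κ₂ lam t) f x =
          MM (mc a b c₁ c₂ lam t) f x := by
        unfold MM
        refine integral_congr_ae (Filter.Eventually.of_forall fun ξ => ?_)
        simp only [mB, h3, mul_one]
      rw [hEq]
      refine hfin t ht A _ _ hA hf ?_ x
      have : 1 * A ≤ D * A := mul_le_mul_of_nonneg_right (by rw [hD]; linarith) hA
      linarith
  have hsup1 : ∀ t ∈ Icc (1 : ℝ) 2, ∀ (A : ℝ) (f : EE (a + b) → ℂ), BI A f →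
      ∀ x, ‖MM (mB a b c₁ c₂ κ₁ (fun _ => 1) lam t) f x‖ ≤ M * lam ^ M * A := by
    intro t ht A f hf x
    have hA := hAnn A f hf
    rcases hB1 with ⟨hu, ⟨h1, h2, h3, h4⟩ | ⟨h1, h2, h3⟩⟩
    · obtain ⟨hd0, hd8⟩ := dl_bd hlam h1
      obtain ⟨hsc, hker⟩ := hKa Lam₁ (dl lam Lam₁) u h1d hd0 hd8 hu
      rw [← h4] at hsc hker
      obtain ⟨g1, g2, -⟩ := hCB1 a b κ₁ f A 1 ha hb hsc hκ1.2 hf
      have hEq : MM (mB a b c₁ c₂ κ₁ (fun _ => 1) lam t) f x =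
          MM (mc a b c₁ c₂ lam t) (cb1 a b (MK κ₁) f) x := by
        unfold MM
        refine integral_congr_ae (Filter.Eventually.of_forall fun ξ => ?_)
        simp only [g2, mB, mul_one]
        ring
      rw [hEq]
      refine hfin t ht A _ _ hA g1 ?_ x
      refine mul_le_mul_of_nonneg_right ?_ hA
      rw [hD]; linarith
    · have hEq : MM (mB a b c₁ c₂ κ₁ (fun _ => 1) lam t) f x =
          MM (mc a b c₁ c₂ lam t) f x := by
        unfold MM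
        refine integral_congr_ae (Filter.Eventually.of_forall fun ξ => ?_)
        simp only [mB, h3, mul_one]
      rw [hEq]
      refine hfin t ht A _ _ hA hf ?_ x
      have : 1 * A ≤ D * A := mul_le_mul_of_nonneg_right (by rw [hD]; linarith) hA
      linarith
  have hsup0 : ∀ t ∈ Icc (1 : ℝ) 2, ∀ (A : ℝ) (f : EE (a + b) → ℂ), BI A f →
      ∀ x, ‖MM (mB a b c₁ c₂ (fun _ => 1) (fun _ => 1) lam t) f x‖ ≤ M * lam ^ M * A := by
    intro t ht A f hf x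
    have hA := hAnn A f hf
    have hEq : MM (mB a b c₁ c₂ (fun _ => 1) (fun _ => 1) lam t) f x =
        MM (mc a b c₁ c₂ lam t) f x := by
      unfold MM
      refine integral_congr_ae (Filter.Eventually.of_forall fun ξ => ?_)
      simp only [mB, mul_one]
    rw [hEq]
    refine hfin t ht A _ _ hA hf ?_ x
    have : 1 * A ≤ D * A := mul_le_mul_of_nonneg_right (by rw [hD]; linarith) hA
    linarith
  -- invariance
  have hinv1 : ∀ (k₂ : EE b → ℂ) (t : ℝ) (ξ ξ' : EE (a + b)), ‖p1 a b ξ‖ = ‖p1 a b ξ'‖ →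
      p2 a b ξ = p2 a b ξ' →
      mB a b c₁ c₂ (fun _ => 1) k₂ lam t ξ = mB a b c₁ c₂ (fun _ => 1) k₂ lam t ξ' := by
    intro k₂ t ξ ξ' h1 h2
    unfold mB mc mT
    rw [hnorm ξ ξ' h1 (by rw [h2]), h1, h2]
  have hinv2 : ∀ (k₁ : EE a → ℂ) (t : ℝ) (ξ ξ' : EE (a + b)), ‖p2 a b ξ‖ = ‖p2 a b ξ'‖ →
      p1 a b ξ = p1 a b ξ' →
      mB a b c₁ c₂ k₁ (fun _ => 1) lam t ξ = mB a b c₁ c₂ k₁ (fun _ => 1) lam t ξ' := by
    intro k₁ t ξ ξ' h1 h2
    unfold mB mc mT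
    rw [hnorm ξ ξ' (by rw [h2]) h1, h1, h2]
  refine ⟨?_, ?_, ?_, ?_⟩
  · intro hc
    obtain ⟨g1, g2, g3⟩ := mb_core hJM a b lam Lam₁ Lam₂ c₁ c₂ (fun _ => 1) κ₂ hlam h1c h2c
      continuous_const hκ2.1 hone.1 hκ2.2
    refine ⟨g1, g2, ?_, hinv1 κ₂, hsup2⟩
    intro t ξ h
    obtain ⟨q1, q2, -⟩ := g3 t ξ h
    exact ⟨q1, chi_block h1d hc q2⟩
  · intro hc
    obtain ⟨g1, g2, g3⟩ := mb_core hJM a b lam Lam₁ Lam₂ c₁ c₂ κ₁ (fun _ => 1) hlam h1c h2c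
      hκ1.1 continuous_const hκ1.2 hone.2
    refine ⟨g1, g2, ?_, hinv2 κ₁, hsup1⟩
    intro t ξ h
    obtain ⟨q1, -, q2⟩ := g3 t ξ h
    exact ⟨q1, chi_block h2d hc q2⟩
  · intro hc
    obtain ⟨g1, g2, g3⟩ := mb_core hJM a b lam Lam₁ Lam₂ c₁ c₂ (fun _ => 1) (fun _ => 1) hlam
      h1c h2c continuous_const continuous_const hone.1 hone.2
    refine ⟨g1, g2, ?_, hinv1 _, hsup0⟩
    intro t ξ h
    obtain ⟨q1, q2, -⟩ := g3 t ξ h
    exact ⟨q1, chi_block h1d hc q2⟩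
  · intro hc
    obtain ⟨g1, g2, g3⟩ := mb_core hJM a b lam Lam₁ Lam₂ c₁ c₂ (fun _ => 1) (fun _ => 1) hlam
      h1c h2c continuous_const continuous_const hone.1 hone.2
    refine ⟨g1, g2, ?_, hinv2 _, hsup0⟩
    intro t ξ h
    obtain ⟨q1, -, q2⟩ := g3 t ξ h
    exact ⟨q1, chi_block h2d hc q2⟩

end Pool.Agent.H86.TN.MFX
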